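import Pool.Agent.H769Z.NR.Main

/-! Column stabilization of the algebraic boundary of the matrices of nonnegative rank at most
`r`, for every `r`, uniformly in the number of rows. -/

set_option autoImplicit false

namespace Pool.Agent.Results.MP_2b7562_ag.AColumnStab

open Pool.Agent.H769Z.NR

theorem result (r : ℕ) : ∃ n0 : ℕ, ∀ n : ℕ, n0 ≤ n → ∀ m : ℕ,
    ∀ M ∈ algBoundary (Fin m) (Fin (n + 1)) r, ∃ i : Fin (n + 1),
      M.submatrix id i.succAbove ∈ algBoundary (Fin m) (Fin n) r :=
  stabilization r

end Pool.Agent.Results.MP_2b7562_ag.AColumnStab
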